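import Mathlib
import Pool.Agent.Helper43.RK.Defs

/-!
# Project RK (MP_aa96c4_al): the one step lemma (digits), memo section 1

`E` a group, `F` a subgroup, every element of `E` is `e ^ a * y` with `a < p`, `y ∈ F`. `S v` are the
elements of weight `v`. A functional `f` on `F` is extended by digits: `f' (e ^ a * y) = f y`. If `f` kills
`p ^ b` times the words of `F` with `R ≤ Θ b (weight)`, then `f'` does the same on `E`.
-/

set_option autoImplicit false
set_option linter.unusedSectionVars false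

namespace Pool.Agent.Helper2.RK

open MonoidAlgebra RK43

variable {G : Type} [Group G]

/-! ### generalities -/

lemma closure_mul_mem {A : Type*} [Ring A] {S T : Set A} {K : AddSubgroup A}
    (h : ∀ s ∈ S, ∀ t ∈ T, s * t ∈ K) {a b : A} (ha : a ∈ AddSubgroup.closure S)
    (hb : b ∈ AddSubgroup.closure T) : a * b ∈ K := by
  have h1 : ∀ s ∈ S, ∀ b ∈ AddSubgroup.closure T, s * b ∈ K := by
    intro s hs b hb
    induction hb using AddSubgroup.closure_induction with
    | mem t ht => exact h s hs t ht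
    | zero => rw [mul_zero]; exact K.zero_mem
    | add x y _ _ hx hy => rw [mul_add]; exact K.add_mem hx hy
    | neg x _ hx => rw [mul_neg]; exact K.neg_mem hx
  induction ha using AddSubgroup.closure_induction with
  | mem s hs => exact h1 s hs b hb
  | zero => rw [zero_mul]; exact K.zero_mem
  | add x y _ _ hx hy => rw [add_mul]; exact K.add_mem hx hy
  | neg x _ hx => rw [neg_mul]; exact K.neg_mem hx

lemma ext_of (f : G → TT) (x : G) : ext f (MonoidAlgebra.of ℤ G x) = f x := by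
  change Finsupp.liftAddHom (fun x => zmultiplesHom TT (f x)) (Finsupp.single x (1 : ℤ)) = f x
  rw [Finsupp.liftAddHom_apply_single]
  simp

/-- `ℤ[X]`. -/
noncomputable def ZS (X : Subgroup G) : AddSubgroup (MonoidAlgebra ℤ G) :=
  AddSubgroup.closure {a | ∃ x ∈ X, a = MonoidAlgebra.of ℤ G x}

/-- the word of a weighted list -/
noncomputable def wdl (L : List (G × ℕ)) : MonoidAlgebra ℤ G := wd (L.map Prod.fst)

lemma wdl_nil : wdl ([] : List (G × ℕ)) = 1 := rfl
lemma wt_nil : wt ([] : List (G × ℕ)) = 0 := rfl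

lemma wdl_append (L L' : List (G × ℕ)) : wdl (L ++ L') = wdl L * wdl L' := by
  simp [wdl, wd]

lemma wt_append (L L' : List (G × ℕ)) : wt (L ++ L') = wt L + wt L' := by
  simp [wt]

lemma wdl_single (v : ℕ) (x : G) : wdl [(x, v)] = dl x := by
  simp [wdl, wd]

lemma wt_single (v : ℕ) (x : G) : wt [(x, v)] = v := by
  simp [wt]

lemma wdl_cons (q : G × ℕ) (L : List (G × ℕ)) : wdl (q :: L) = dl q.1 * wdl L := by
  simp [wdl, wd]

lemma wt_cons (q : G × ℕ) (L : List (G × ℕ)) : wt (q :: L) = q.2 + wt L := by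
  simp [wt]

lemma WIn.append {F : Subgroup G} {S : ℕ → Subgroup G} {L L' : List (G × ℕ)} (h : WIn F S L)
    (h' : WIn F S L') : WIn F S (L ++ L') := by
  intro q hq
  rcases List.mem_append.1 hq with hq | hq
  · exact h q hq
  · exact h' q hq

lemma WIn.left {F : Subgroup G} {S : ℕ → Subgroup G} {L L' : List (G × ℕ)} (h : WIn F S (L ++ L')) :
    WIn F S L := fun q hq => h q (List.mem_append_left _ hq)

lemma WIn.single {F : Subgroup G} {S : ℕ → Subgroup G} {v : ℕ} {x : G} (hx : x ∈ F)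
    (hS : x ∈ S v) : WIn F S [(x, v)] := by
  intro q hq
  rw [List.mem_singleton] at hq
  subst hq
  exact ⟨hx, hS⟩

lemma WIn.nil (F : Subgroup G) (S : ℕ → Subgroup G) : WIn F S [] := by
  intro q hq
  simp at hq

/-! ### normal forms -/

section step

variable (F : Subgroup G) (S : ℕ → Subgroup G) (e : G) (w : ℕ)

/-- normal forms `(e - 1)^s β` of weight `≥ u`, `β` a word of `F` -/
noncomputable def NF (u : ℕ) : AddSubgroup (MonoidAlgebra ℤ G) :=
  AddSubgroup.closure {α | ∃ (s : ℕ) (L : List (G × ℕ)), WIn F S L ∧ u ≤ s * w + wt L ∧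
    α = dl e ^ s * wdl L}

/-- the same with `(s, β)` not empty -/
noncomputable def NF1 (u : ℕ) : AddSubgroup (MonoidAlgebra ℤ G) :=
  AddSubgroup.closure {α | ∃ (s : ℕ) (L : List (G × ℕ)), WIn F S L ∧ u ≤ s * w + wt L ∧
    (s ≠ 0 ∨ L ≠ []) ∧ α = dl e ^ s * wdl L}

variable {F S e w}

lemma NF1_le (u : ℕ) : NF1 F S e w u ≤ NF F S e w u :=
  AddSubgroup.closure_mono fun _ ⟨s, L, hL, hu, _, hα⟩ => ⟨s, L, hL, hu, hα⟩

lemma NF_mem {u s : ℕ} {L : List (G × ℕ)} (hL : WIn F S L) (hu : u ≤ s * w + wt L) :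
    dl e ^ s * wdl L ∈ NF F S e w u := AddSubgroup.subset_closure ⟨s, L, hL, hu, rfl⟩

lemma NF1_mono {u u' : ℕ} (h : u ≤ u') : NF1 F S e w u' ≤ NF1 F S e w u :=
  AddSubgroup.closure_mono fun _ ⟨s, L, hL, hu, hα⟩ => ⟨s, L, hL, h.trans hu, hα⟩

/-- multiplication by a letter of `F` -/
lemma NF_mul_dl {u v : ℕ} {y : G} (hy : y ∈ F) (hS : y ∈ S v)
    {α : MonoidAlgebra ℤ G} (hα : α ∈ NF F S e w u) : α * dl y ∈ NF1 F S e w (u + v) := by
  induction hα using AddSubgroup.closure_induction with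
  | mem x hx =>
    obtain ⟨s, L, hL, hu, rfl⟩ := hx
    refine AddSubgroup.subset_closure ⟨s, L ++ [(y, v)], WIn.append hL (WIn.single hy hS), ?_,
      Or.inr (by simp), ?_⟩
    · rw [wt_append, wt_single]
      omega
    · rw [wdl_append, wdl_single, mul_assoc]
  | zero => rw [zero_mul]; exact (NF1 F S e w _).zero_mem
  | add x y _ _ hx hy => rw [add_mul]; exact (NF1 F S e w _).add_mem hx hy
  | neg x _ hx => rw [neg_mul]; exact (NF1 F S e w _).neg_mem hx

/-- `(y - 1)(e - 1)` rewritten, `c = y⁻¹ e⁻¹ y e` -/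
lemma dl_mul_dl (y e : G) :
    dl y * dl e = dl e * dl y + (dl (y⁻¹ * e⁻¹ * y * e) + dl e * dl (y⁻¹ * e⁻¹ * y * e) +
      dl y * dl (y⁻¹ * e⁻¹ * y * e) + dl e * dl y * dl (y⁻¹ * e⁻¹ * y * e)) := by
  have h : (MonoidAlgebra.of ℤ G e) * MonoidAlgebra.of ℤ G y *
      MonoidAlgebra.of ℤ G (y⁻¹ * e⁻¹ * y * e) =
      MonoidAlgebra.of ℤ G y * MonoidAlgebra.of ℤ G e := by
    rw [← map_mul, ← map_mul, ← map_mul]
    congr 1
    group
  have h2 : dl y * dl e = MonoidAlgebra.of ℤ G y * MonoidAlgebra.of ℤ G e -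
      MonoidAlgebra.of ℤ G y - MonoidAlgebra.of ℤ G e + 1 := by
    unfold dl
    noncomm_ring
  have h3 : dl e * dl y + (dl (y⁻¹ * e⁻¹ * y * e) + dl e * dl (y⁻¹ * e⁻¹ * y * e) +
      dl y * dl (y⁻¹ * e⁻¹ * y * e) + dl e * dl y * dl (y⁻¹ * e⁻¹ * y * e)) =
      (MonoidAlgebra.of ℤ G e) * MonoidAlgebra.of ℤ G y *
      MonoidAlgebra.of ℤ G (y⁻¹ * e⁻¹ * y * e) -
      MonoidAlgebra.of ℤ G y - MonoidAlgebra.of ℤ G e + 1 := by
    unfold dl
    noncomm_ring
  rw [h2, h3, h]

/-- moving `e - 1` to the left -/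
lemma NF_mul_e (h1 : ∀ v, ∀ y ∈ F, y ∈ S v →
      y⁻¹ * e⁻¹ * y * e ∈ F ∧ y⁻¹ * e⁻¹ * y * e ∈ S (v + w)) {u : ℕ}
    {α : MonoidAlgebra ℤ G} (hα : α ∈ NF F S e w u) : α * dl e ∈ NF1 F S e w (u + w) := by
  have key : ∀ (n : ℕ) (L : List (G × ℕ)), L.length = n → WIn F S L → ∀ s : ℕ,
      dl e ^ s * wdl L * dl e ∈ NF1 F S e w (s * w + wt L + w) := by
    intro n
    induction n with
    | zero =>
      intro L hn hL s
      rw [List.length_eq_zero_iff.1 hn, wdl_nil, wt_nil, mul_one, ← pow_succ]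
      refine AddSubgroup.subset_closure ⟨s + 1, [], WIn.nil F S, ?_, Or.inl (by omega), ?_⟩
      · rw [wt_nil]; ring_nf; omega
      · rw [wdl_nil, mul_one]
    | succ n ih =>
      intro L hn hL s
      obtain ⟨L', q, rfl⟩ : ∃ L' q, L = L' ++ [q] := by
        rcases List.eq_nil_or_concat' L with h | ⟨L', q, h⟩
        · rw [h] at hn; simp at hn
        · exact ⟨L', q, h⟩
      obtain ⟨y, v⟩ := q
      have hn' : L'.length = n := by simpa using hn
      have hL' : WIn F S L' := WIn.left hL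
      obtain ⟨hy, hyS⟩ := hL (y, v) (by simp)
      simp only at hy hyS
      obtain ⟨hc, hcS⟩ := h1 v y hy hyS
      set c := y⁻¹ * e⁻¹ * y * e with hcdef
      have e0 : dl e ^ s * wdl (L' ++ [(y, v)]) * dl e =
          dl e ^ s * wdl L' * dl e * dl y + (dl e ^ s * wdl L' * dl c +
            dl e ^ s * wdl L' * dl e * dl c + dl e ^ s * wdl L' * dl y * dl c +
            dl e ^ s * wdl L' * dl e * dl y * dl c) := by
        rw [wdl_append, wdl_single, ← mul_assoc, mul_assoc _ (dl y) (dl e), dl_mul_dl, ← hcdef]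
        noncomm_ring
      rw [e0, wt_append, wt_single]
      have hA := NF1_le _ (ih L' hn' hL' s)
      have hB : dl e ^ s * wdl L' ∈ NF F S e w (s * w + wt L') := NF_mem hL' le_rfl
      have m1 := NF_mul_dl hy hyS hA
      have m2 := NF_mul_dl hc hcS hB
      have m3 := NF_mul_dl hc hcS hA
      have m4 := NF_mul_dl hc hcS (NF1_le _ (NF_mul_dl hy hyS hB))
      have m5 := NF_mul_dl hc hcS (NF1_le _ m1)
      refine AddSubgroup.add_mem _ (NF1_mono (by omega) m1) (AddSubgroup.add_mem _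
        (AddSubgroup.add_mem _ (AddSubgroup.add_mem _ (NF1_mono (by omega) m2)
          (NF1_mono (by omega) m3)) (NF1_mono (by omega) m4)) (NF1_mono (by omega) m5))
  induction hα using AddSubgroup.closure_induction with
  | mem x hx =>
    obtain ⟨s, L, hL, hu, rfl⟩ := hx
    exact NF1_mono (by omega) (key _ L rfl hL s)
  | zero => rw [zero_mul]; exact (NF1 F S e w _).zero_mem
  | add x y _ _ hx hy => rw [add_mul]; exact (NF1 F S e w _).add_mem hx hy
  | neg x _ hx => rw [neg_mul]; exact (NF1 F S e w _).neg_mem hx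

lemma dl_one : dl (1 : G) = 0 := by
  unfold dl
  rw [map_one, sub_self]

/-- multiplication by `e ^ a - 1` -/
lemma NF_mul_pow (h1 : ∀ v, ∀ y ∈ F, y ∈ S v →
      y⁻¹ * e⁻¹ * y * e ∈ F ∧ y⁻¹ * e⁻¹ * y * e ∈ S (v + w)) {u : ℕ}
    {α : MonoidAlgebra ℤ G} (hα : α ∈ NF F S e w u) (a : ℕ) :
    α * dl (e ^ a) ∈ NF1 F S e w (u + w) := by
  induction a with
  | zero =>
    rw [pow_zero, dl_one, mul_zero]
    exact (NF1 F S e w _).zero_mem
  | succ a ih =>
    have h : α * dl (e ^ (a + 1)) = α * dl (e ^ a) * dl e + α * dl (e ^ a) + α * dl e := by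
      unfold dl
      rw [pow_succ, map_mul]
      noncomm_ring
    rw [h]
    exact AddSubgroup.add_mem _ (AddSubgroup.add_mem _
      (NF1_mono (by omega) (NF_mul_e h1 (NF1_le _ ih))) ih) (NF_mul_e h1 hα)

/-- multiplication by a letter of `E` -/
lemma NF_mul_x (h1 : ∀ v, ∀ y ∈ F, y ∈ S v →
      y⁻¹ * e⁻¹ * y * e ∈ F ∧ y⁻¹ * e⁻¹ * y * e ∈ S (v + w)) {u v a : ℕ} {y : G}
    (hy : y ∈ F) (hS : y ∈ S v) (ha : a = 0 ∨ v ≤ w)
    {α : MonoidAlgebra ℤ G} (hα : α ∈ NF F S e w u) :
    α * dl (e ^ a * y) ∈ NF1 F S e w (u + v) := by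
  have h : α * dl (e ^ a * y) = α * dl (e ^ a) * dl y + α * dl (e ^ a) + α * dl y := by
    unfold dl
    rw [map_mul]
    noncomm_ring
  rw [h]
  have m0 := NF_mul_pow h1 hα a
  refine AddSubgroup.add_mem _ (AddSubgroup.add_mem _ (NF1_mono (by omega)
    (NF_mul_dl hy hS (NF1_le _ m0))) ?_) (NF_mul_dl hy hS hα)
  rcases ha with rfl | ha
  · rw [pow_zero, dl_one, mul_zero]
    exact (NF1 F S e w _).zero_mem
  · exact NF1_mono (by omega) m0

/-- every word of `E` is in normal form -/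
lemma wdl_mem_NF {E : Subgroup G} {p : ℕ}
    (hE : ∀ x ∈ E, ∃ a < p, ∃ y ∈ F, x = e ^ a * y)
    (h1 : ∀ v, ∀ y ∈ F, y ∈ S v →
      y⁻¹ * e⁻¹ * y * e ∈ F ∧ y⁻¹ * e⁻¹ * y * e ∈ S (v + w))
    (h3 : ∀ v, ∀ a < p, ∀ y ∈ F, e ^ a * y ∈ S v → y ∈ S v ∧ (a = 0 ∨ v ≤ w))
    {L : List (G × ℕ)} (hL : WIn E S L) :
    wdl L ∈ NF F S e w (wt L) ∧ (L ≠ [] → wdl L ∈ NF1 F S e w (wt L)) := by
  induction L using List.reverseRecOn with
  | nil =>
    refine ⟨?_, fun h => absurd rfl h⟩
    have h := NF_mem (e := e) (w := w) (u := 0) (s := 0) (L := []) (WIn.nil F S) (by omega)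
    simpa [wdl_nil, wt_nil] using h
  | append_singleton L q ih =>
    obtain ⟨x, v⟩ := q
    obtain ⟨hx, hxS⟩ := hL (x, v) (by simp)
    simp only at hx hxS
    obtain ⟨a, ha, y, hy, rfl⟩ := hE x hx
    obtain ⟨hyS, hav⟩ := h3 v a ha y hy hxS
    have h : wdl (L ++ [(e ^ a * y, v)]) ∈ NF1 F S e w (wt (L ++ [(e ^ a * y, v)])) := by
      rw [wdl_append, wdl_single, wt_append, wt_single]
      exact NF_mul_x h1 hy hyS hav (ih (WIn.left hL)).1
    exact ⟨NF1_le _ h, fun _ => h⟩

end step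

/-! ### evaluation -/

lemma ZS_mul {F : Subgroup G} {α β : MonoidAlgebra ℤ G} (hα : α ∈ ZS F) (hβ : β ∈ ZS F) :
    α * β ∈ ZS F := by
  refine closure_mul_mem (K := ZS F) ?_ hα hβ
  rintro _ ⟨x, hx, rfl⟩ _ ⟨y, hy, rfl⟩
  exact AddSubgroup.subset_closure ⟨x * y, F.mul_mem hx hy, (map_mul _ _ _).symm⟩

lemma one_mem_ZS (F : Subgroup G) : (1 : MonoidAlgebra ℤ G) ∈ ZS F :=
  AddSubgroup.subset_closure ⟨1, F.one_mem, (map_one _).symm⟩

lemma dl_mem_ZS {F : Subgroup G} {y : G} (hy : y ∈ F) : dl y ∈ ZS F :=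
  (ZS F).sub_mem (AddSubgroup.subset_closure ⟨y, hy, rfl⟩) (one_mem_ZS F)

lemma wdl_mem_ZS {F : Subgroup G} {L : List (G × ℕ)} (hL : ∀ q ∈ L, q.1 ∈ F) : wdl L ∈ ZS F := by
  induction L with
  | nil => rw [wdl_nil]; exact one_mem_ZS F
  | cons q L ih =>
    rw [wdl_cons]
    exact ZS_mul (dl_mem_ZS (hL q (by simp))) (ih fun x hx => hL x (by simp [hx]))

/-- `f' (e ^ a γ) = f γ` -/
lemma ext_digit {F : Subgroup G} {e : G} {p : ℕ} {f f' : G → TT}
    (hf' : ∀ a < p, ∀ y ∈ F, f' (e ^ a * y) = f y) {a : ℕ} (ha : a < p)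
    {γ : MonoidAlgebra ℤ G} (hγ : γ ∈ ZS F) :
    ext f' (MonoidAlgebra.of ℤ G e ^ a * γ) = ext f γ := by
  induction hγ using AddSubgroup.closure_induction with
  | mem x hx =>
    obtain ⟨y, hy, rfl⟩ := hx
    rw [← map_pow, ← map_mul, ext_of, ext_of, hf' a ha y hy]
  | zero => rw [mul_zero, map_zero, map_zero]
  | add x y _ _ hx hy => rw [mul_add, map_add, map_add, hx, hy]
  | neg x _ hx => rw [mul_neg, map_neg, map_neg, hx]

/-- `f' (e ^ a (e - 1) ^ s γ) = 0` for `1 ≤ s`, `a + s < p` -/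
lemma ext_digit_zero {F : Subgroup G} {e : G} {p : ℕ} {f f' : G → TT}
    (hf' : ∀ a < p, ∀ y ∈ F, f' (e ^ a * y) = f y)
    {γ : MonoidAlgebra ℤ G} (hγ : γ ∈ ZS F) {s : ℕ} (hs : 1 ≤ s) :
    ∀ a : ℕ, a + s < p → ext f' (MonoidAlgebra.of ℤ G e ^ a * (dl e ^ s * γ)) = 0 := by
  induction s, hs using Nat.le_induction with
  | base =>
    intro a ha
    have h : MonoidAlgebra.of ℤ G e ^ a * (dl e ^ 1 * γ) =
        MonoidAlgebra.of ℤ G e ^ (a + 1) * γ - MonoidAlgebra.of ℤ G e ^ a * γ := by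
      unfold dl
      rw [pow_one, pow_succ]
      noncomm_ring
    rw [h, map_sub, ext_digit hf' ha hγ, ext_digit hf' (by omega) hγ, sub_self]
  | succ s hs ih =>
    intro a ha
    have h : MonoidAlgebra.of ℤ G e ^ a * (dl e ^ (s + 1) * γ) =
        MonoidAlgebra.of ℤ G e ^ (a + 1) * (dl e ^ s * γ) -
          MonoidAlgebra.of ℤ G e ^ a * (dl e ^ s * γ) := by
      rw [pow_succ' (dl e)]
      have : dl e = MonoidAlgebra.of ℤ G e - 1 := rfl
      rw [this, pow_succ]
      noncomm_ring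
    rw [h, map_sub, ih _ (by omega), ih _ (by omega), sub_self]

/-- `(e - 1)^p` in terms of `e^p - 1` and lower powers -/
lemma dl_pow_prime (p : ℕ) (hp : 1 ≤ p) (e : G) :
    dl e ^ p = dl (e ^ p) - ∑ i ∈ Finset.Ioo 0 p, (p.choose i) • dl e ^ i := by
  have h1 : MonoidAlgebra.of ℤ G e = dl e + 1 := by
    unfold dl
    rw [sub_add_cancel]
  have h2 : MonoidAlgebra.of ℤ G (e ^ p) = ∑ m ∈ Finset.range (p + 1), (p.choose m) • dl e ^ m := by
    rw [map_pow, h1, (Commute.one_right (dl e)).add_pow]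
    refine Finset.sum_congr rfl fun m _ => ?_
    rw [one_pow, mul_one, nsmul_eq_mul]
    exact ((Nat.cast_commute _ _).eq).symm
  have h3 : dl (e ^ p) = ∑ m ∈ Finset.range (p + 1), (p.choose m) • dl e ^ m - 1 := by
    rw [← h2]; rfl
  have h4 : Finset.range (p + 1) = insert 0 (insert p (Finset.Ioo 0 p)) := by
    ext m
    simp only [Finset.mem_range, Finset.mem_insert, Finset.mem_Ioo]
    omega
  rw [h3, h4, Finset.sum_insert, Finset.sum_insert]
  · simp
  · simp
  · simp only [Finset.mem_insert, Finset.mem_Ioo]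
    omega

/-- the functional kills normal forms of large weight -/
lemma ext_NF {F : Subgroup G} {S : ℕ → Subgroup G} {e : G} {w p R : ℕ} {Θ : ℕ → ℕ → ℕ}
    {f f' : G → TT} (hp : p.Prime)
    (hf' : ∀ a < p, ∀ y ∈ F, f' (e ^ a * y) = f y)
    (h2 : e ^ p ∈ F ∧ e ^ p ∈ S (p * w)) (hΘ : Pot p w Θ) (hK : Kill p F S f Θ R) :
    ∀ (s b : ℕ) (L : List (G × ℕ)), WIn F S L → (s ≠ 0 ∨ L ≠ []) → R ≤ Θ b (s * w + wt L) →
      p ^ b • ext f' (dl e ^ s * wdl L) = 0 := by
  intro s
  induction s using Nat.strong_induction_on with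
  | _ s ih =>
    intro b L hL hne hB
    have hZ : wdl L ∈ ZS F := wdl_mem_ZS fun q hq => (hL q hq).1
    rcases Nat.eq_zero_or_pos s with rfl | hs
    · have hne' : L ≠ [] := by
        rcases hne with h | h
        · exact absurd rfl h
        · exact h
      have h := ext_digit hf' hp.pos hZ
      rw [pow_zero, one_mul] at h
      rw [pow_zero, one_mul, h]
      exact hK b L hne' hL (by simpa using hB)
    · rcases lt_or_ge s p with hsp | hsp
      · have h := ext_digit_zero hf' hZ hs 0 (by omega)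
        rw [pow_zero, one_mul] at h
        rw [h, smul_zero]
      · have e1 : dl e ^ s * wdl L = dl e ^ (s - p) * wdl ((e ^ p, p * w) :: L) -
            ∑ i ∈ Finset.Ioo 0 p, (p.choose i) • (dl e ^ (s - p + i) * wdl L) := by
          have e2 : dl e ^ s = dl e ^ (s - p) * dl e ^ p := by
            rw [← pow_add]; congr 1; omega
          rw [e2, dl_pow_prime p hp.one_le e, mul_sub, sub_mul, Finset.mul_sum, Finset.sum_mul,
            wdl_cons, ← mul_assoc]
          congr 1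
          refine Finset.sum_congr rfl fun i _ => ?_
          rw [pow_add, mul_smul_comm, smul_mul_assoc]
        rw [e1, map_sub, map_sum, smul_sub, Finset.smul_sum]
        have hL2 : WIn F S ((e ^ p, p * w) :: L) := by
          intro q hq
          rcases List.mem_cons.1 hq with rfl | hq
          · exact ⟨h2.1, h2.2⟩
          · exact hL q hq
        have hsw : s * w = (s - p) * w + p * w := by
          rw [← Nat.add_mul]; congr 1; omega
        have hw2 : (s - p) * w + wt ((e ^ p, p * w) :: L) = s * w + wt L := by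
          rw [wt_cons]
          simp only
          omega
        rw [ih (s - p) (by have := hp.pos; omega) b _ hL2 (Or.inr (by simp)) (by rw [hw2]; exact hB)]
        rw [Finset.sum_eq_zero, sub_zero]
        intro i hi
        rw [Finset.mem_Ioo] at hi
        obtain ⟨c, hc⟩ := hp.dvd_choose_self hi.1.ne' hi.2
        rw [map_nsmul, hc]
        have hB' : R ≤ Θ (b + 1) ((s - p + i) * w + wt L) := by
          have e3 : s * w + wt L = p * w + ((s - p) * w + wt L) := by omega
          have e4 : (s - p + i) * w + wt L = i * w + ((s - p) * w + wt L) := by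
            rw [Nat.add_mul]; omega
          rw [e3] at hB
          rw [e4]
          exact hB.trans (hΘ.2 b _ i hi.1)
        have h := ih (s - p + i) (by omega) (b + 1) L hL (Or.inl (by omega)) hB'
        rw [smul_smul, show p ^ b * (p * c) = c * p ^ (b + 1) by ring, mul_smul, h, smul_zero]

/-- **ONE STEP LEMMA.** -/
theorem oneStep (p : ℕ) [hp : Fact p.Prime] : RK43.OneStep p := by
  intro G _ S F E e w st f f' _ hf' Θ R hΘ hK b L hne hL hB
  have h := (wdl_mem_NF st.dig st.comm st.adapt hL).2 hne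
  have key : ∀ α ∈ NF1 F S e w (wt L), p ^ b • ext f' α = 0 := by
    intro α hα
    induction hα using AddSubgroup.closure_induction with
    | mem x hx =>
      obtain ⟨s, L', hL', hu, hne', rfl⟩ := hx
      exact ext_NF hp.out hf' st.pow hΘ hK s b L' hL' hne' (hB.trans (hΘ.1 b hu))
    | zero => rw [map_zero, smul_zero]
    | add x y _ _ hx hy => rw [map_add, smul_add, hx, hy, add_zero]
    | neg x _ hx => rw [map_neg, smul_neg, hx, neg_zero]
  exact key _ h

/-- the digit functional exists -/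
theorem exists_digit {T : Type*} [Zero T] {F : Subgroup G} {e : G} {p : ℕ}
    (he : ∀ a < p, ∀ y ∈ F, e ^ a * y ∈ F → a = 0)
    (f : G → T) : ∃ f' : G → T, ∀ a < p, ∀ y ∈ F, f' (e ^ a * y) = f y := by
  classical
  refine ⟨fun g => if h : ∃ a < p, (e ^ a)⁻¹ * g ∈ F then f ((e ^ h.choose)⁻¹ * g) else 0, ?_⟩
  intro a ha y hy
  have hex : ∃ a' < p, (e ^ a')⁻¹ * (e ^ a * y) ∈ F := ⟨a, ha, by simpa using hy⟩
  simp only [dif_pos hex]
  obtain ⟨hc1, hc2⟩ := hex.choose_spec
  set c := hex.choose with hc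
  have hca : c = a := by
    have h4 : (e ^ c)⁻¹ * e ^ a ∈ F := by
      have h5 : (e ^ c)⁻¹ * e ^ a = (e ^ c)⁻¹ * (e ^ a * y) * y⁻¹ := by group
      rw [h5]
      exact F.mul_mem hc2 (F.inv_mem hy)
    have he' : ∀ d, 0 < d → d < p → e ^ d ∉ F := fun d h0 hd hmem => by
      have := he d hd 1 F.one_mem (by rwa [mul_one])
      omega
    rcases lt_trichotomy c a with h | h | h
    · exfalso
      have h6 : (e ^ c)⁻¹ * e ^ a = e ^ (a - c) := by
        rw [inv_mul_eq_iff_eq_mul, ← pow_add]; congr 1; omega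
      rw [h6] at h4
      exact he' _ (by omega) (by omega) h4
    · exact h
    · exfalso
      have h6 : (e ^ a)⁻¹ * e ^ c = e ^ (c - a) := by
        rw [inv_mul_eq_iff_eq_mul, ← pow_add]; congr 1; omega
      have h7 := F.inv_mem h4
      rw [mul_inv_rev, inv_inv, h6] at h7
      exact he' _ (by omega) (by omega) h7
  rw [hca]
  simp

/-! ### the two potentials -/

/-- `Ψ b u = p ^ b u` -/
def Psi (p b u : ℕ) : ℕ := p ^ b * u

lemma Psi_pot {p : ℕ} (hp : 1 ≤ p) (w : ℕ) : Pot p w (Psi p) := by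
  refine ⟨fun b u u' h => Nat.mul_le_mul_left _ h, fun b v i hi => ?_⟩
  unfold Psi
  rw [pow_succ, mul_assoc]
  refine Nat.mul_le_mul_left _ ?_
  have h1 : v ≤ p * v := Nat.le_mul_of_pos_left _ hp
  have h2 : p * w ≤ p * (i * w) := Nat.mul_le_mul_left _ (Nat.le_mul_of_pos_left _ hi)
  rw [Nat.mul_add]
  omega

/-- `Φ(u) = min (p u) (u + (p-1) H)` -/
def Phi (p H u : ℕ) : ℕ := min (p * u) (u + (p - 1) * H)

lemma Phi_mono (p H : ℕ) : Monotone (Phi p H) := by
  intro u u' h
  unfold Phi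
  exact min_le_min (Nat.mul_le_mul_left _ h) (Nat.add_le_add_right h _)

/-- `Φ_b (u)` -/
def PhiB (p H b u : ℕ) : ℕ := (Phi p H)^[b] u

lemma PhiB_pot {p H w : ℕ} (hp : 1 ≤ p) (hw : w ≤ H) : Pot p w (PhiB p H) := by
  refine ⟨fun b u u' h => (Phi_mono p H).iterate b h, fun b v i hi => ?_⟩
  unfold PhiB
  rw [Function.iterate_succ_apply]
  refine (Phi_mono p H).iterate b ?_
  unfold Phi
  obtain ⟨q, rfl⟩ : ∃ q, p = q + 1 := ⟨p - 1, by omega⟩
  rw [Nat.add_sub_cancel]
  have h0 : w ≤ i * w := Nat.le_mul_of_pos_left _ hi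
  refine le_min ?_ ?_
  · have h1 : v ≤ (q + 1) * v := Nat.le_mul_of_pos_left _ hp
    have h2 : (q + 1) * w ≤ (q + 1) * (i * w) := Nat.mul_le_mul_left _ h0
    rw [Nat.mul_add]
    omega
  · have : q * w ≤ q * H := Nat.mul_le_mul_left _ hw
    rw [Nat.add_mul, one_mul]
    omega

/-- `Φ^b(u) ≤ p^b u` -/
lemma Phi_iter_le (p H b u : ℕ) : (Phi p H)^[b] u ≤ p ^ b * u := by
  induction b generalizing u with
  | zero => simp
  | succ b ih =>
    rw [Function.iterate_succ_apply]
    refine (ih _).trans ?_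
    rw [pow_succ, mul_assoc]
    exact Nat.mul_le_mul_left _ (min_le_left _ _)

/-- `Φ^b(u) ≤ u + b (p-1) H` -/
lemma Phi_iter_le_add (p H b u : ℕ) : (Phi p H)^[b] u ≤ u + b * ((p - 1) * H) := by
  induction b generalizing u with
  | zero => simp
  | succ b ih =>
    rw [Function.iterate_succ_apply]
    refine (ih _).trans ?_
    have : Phi p H u ≤ u + (p - 1) * H := min_le_right _ _
    rw [Nat.add_mul, one_mul]
    omega

/-- for `u ≤ H`: `Φ^b(u) ≥ (m+1) p H` forces `p^b u ≥ p^m H` -/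
lemma Phi_iter_large {p H u : ℕ} (hp : 1 ≤ p) (hu : u ≤ H) (b m : ℕ)
    (h : (m + 1) * (p * H) ≤ (Phi p H)^[b] u) : p ^ m * H ≤ p ^ b * u := by
  -- the first time `a` with `p ^ a u > H`, or never
  by_cases hn : p ^ b * u ≤ H
  · -- never: `Φ^b u ≤ p ^ b u ≤ H`
    have h1 := Phi_iter_le p H b u
    have h2 : (m + 1) * (p * H) ≤ H := h.trans (h1.trans hn)
    rcases Nat.eq_zero_or_pos H with hH | hH
    · rw [hH, mul_zero]; exact Nat.zero_le _
    · have h3 : (m + 1) * p * H ≤ 1 * H := by rw [mul_assoc, one_mul]; exact h2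
      have h4 : (m + 1) * p ≤ 1 := Nat.le_of_mul_le_mul_right h3 hH
      have h5 : p = 1 := by nlinarith
      have h6 : m = 0 := by nlinarith
      subst h5 h6
      simpa using h.trans h1
  · push Not at hn
    have hex : ∃ a, H < p ^ a * u := ⟨b, hn⟩
    classical
    set a := Nat.find hex with ha
    have ha1 : H < p ^ a * u := Nat.find_spec hex
    have ha2 : ∀ a' < a, p ^ a' * u ≤ H := fun a' h' => not_lt.1 (Nat.find_min hex h')
    have hab : a ≤ b := Nat.find_min' hex hn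
    have ha0 : 0 < a := by
      rcases Nat.eq_zero_or_pos a with h0 | h0
      · rw [h0, pow_zero, one_mul] at ha1; omega
      · exact h0
    have hit : ∀ a' ≤ a, (Phi p H)^[a'] u = p ^ a' * u := by
      intro a' h'
      induction a' with
      | zero => simp
      | succ a' ih =>
        rw [Function.iterate_succ_apply', ih (by omega)]
        unfold Phi
        have h3 := ha2 a' (by omega)
        obtain ⟨q, rfl⟩ : ∃ q, p = q + 1 := ⟨p - 1, by omega⟩
        rw [Nat.add_sub_cancel, min_eq_left]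
        · rw [pow_succ]; ring
        · have : q * ((q + 1) ^ a' * u) ≤ q * H := Nat.mul_le_mul_left _ h3
          rw [Nat.add_mul, one_mul]
          omega
    have h5 : (Phi p H)^[b] u = (Phi p H)^[b - a] (p ^ a * u) := by
      rw [← hit a le_rfl, ← Function.iterate_add_apply]
      congr 1
      omega
    have h6 := Phi_iter_le_add p H (b - a) (p ^ a * u)
    have h7 : p ^ a * u ≤ p * H := by
      have e1 : p ^ a * u = p * (p ^ (a - 1) * u) := by
        conv_lhs => rw [show a = (a - 1) + 1 by omega, pow_succ]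
        ring
      rw [e1]
      exact Nat.mul_le_mul_left _ (ha2 (a - 1) (by omega))
    have h8 : (m + 1) * (p * H) ≤ p * H + (b - a) * ((p - 1) * H) := by
      calc (m + 1) * (p * H) ≤ _ := h
        _ = _ := h5
        _ ≤ _ := h6
        _ ≤ _ := Nat.add_le_add_right h7 _
    have hHpos : 0 < H := by
      rcases Nat.eq_zero_or_pos H with h0 | h0
      · exfalso
        have hu0 : u = 0 := by omega
        rw [hu0, mul_zero] at ha1
        omega
      · exact h0
    have h9 : m ≤ b - a := by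
      have h10 : m * p * H ≤ (b - a) * (p - 1) * H := by
        have e1 : (m + 1) * (p * H) = m * p * H + p * H := by ring
        have e2 : (b - a) * ((p - 1) * H) = (b - a) * (p - 1) * H := by ring
        omega
      have h11 : m * p ≤ (b - a) * (p - 1) := Nat.le_of_mul_le_mul_right h10 hHpos
      by_contra hcon
      push Not at hcon
      have h12 : (b - a) * (p - 1) ≤ (b - a) * p := Nat.mul_le_mul_left _ (by omega)
      have h13 : (b - a) * p < m * p := Nat.mul_lt_mul_of_pos_right hcon hp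
      omega
    calc p ^ m * H ≤ p ^ (b - a) * H := Nat.mul_le_mul_right _ (Nat.pow_le_pow_right hp h9)
      _ ≤ p ^ (b - a) * (p ^ a * u) := Nat.mul_le_mul_left _ ha1.le
      _ = p ^ b * u := by
        rw [← mul_assoc, ← pow_add]
        congr 2
        omega

end Pool.Agent.Helper2.RK
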